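import Pool.Agent.helper69.AD.GS2

/-!
Module PM1: existence of plaque maps with given jumps.
-/

open scoped MatrixGroups LinearAlgebra.Projectivization
open Matrix UpperHalfPlane

namespace AdSBend

noncomputable section

variable {Γ : Subgroup SL(2, ℝ)}

/-- the values of the plaque map, from the base point -/
inductive PM1_Val (S : LeafSystem Γ) (E : Bd × Bd → SL(2, ℝ)) (z₀ : ℍ) : ℍ → SL(2, ℝ) → Prop
  | base (z : ℍ) (hz : S.OffPt z) (h : S.SamePl z₀ z) : PM1_Val S E z₀ z 1
  | step (p : Bd × Bd) (w z : ℍ) (a : SL(2, ℝ)) (hw : S.OffPt w) (hz : S.OffPt z)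
      (hp : S.Across p w z) (h0 : FrontPt p z₀) (hv : PM1_Val S E z₀ w a) :
      PM1_Val S E z₀ z (a * E p)

theorem PM1_sep_trans {a b c : ℝ} (h : a * c < 0) (hb : b ≠ 0) : a * b < 0 ∨ b * c < 0 := by
  rcases lt_or_gt_of_ne hb with hb | hb
  · by_cases ha : 0 < a
    · exact Or.inl (mul_neg_of_pos_of_neg ha hb)
    · right
      have hc : 0 < c := by
        by_contra hc
        have := mul_nonneg_of_nonpos_of_nonpos (not_lt.mp ha) (not_lt.mp hc)
        linarith
      exact mul_neg_of_neg_of_pos hb hc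
  · by_cases ha : a < 0
    · exact Or.inl (mul_neg_of_neg_of_pos ha hb)
    · right
      have hc : c < 0 := by
        by_contra hc
        have := mul_nonneg (not_lt.mp ha) (not_lt.mp hc)
        linarith
      exact mul_neg_of_pos_of_neg hb hc

theorem PM1_same_sym (S : LeafSystem Γ) {z z' : ℍ} (h : S.SamePl z z') : S.SamePl z' z := by
  intro p hp hs
  refine h p hp ?_
  unfold SepPts at *
  rwa [mul_comm]

theorem PM1_same_trans (S : LeafSystem Γ) {z z' z'' : ℍ} (hz' : S.OffPt z')
    (h : S.SamePl z z') (h' : S.SamePl z' z'') : S.SamePl z z'' := by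
  intro p hp hs
  unfold SepPts at hs
  rcases PM1_sep_trans hs (hz' p hp) with h1 | h1
  · exact h p hp h1
  · exact h' p hp h1

/-- `Across` only depends on the plaque of the last point -/
theorem PM1_across_right (S : LeafSystem Γ) {p : Bd × Bd} {v w w' : ℍ} (hw : S.OffPt w)
    (hw' : S.OffPt w') (h : S.SamePl w w') (hp : S.Across p v w) : S.Across p v w' := by
  obtain ⟨hpL, hf, hb, hu⟩ := hp
  refine ⟨hpL, hf, ?_, ?_⟩
  · have h1 := h p hpL
    unfold SepPts at h1
    unfold BehindPt at *
    rcases lt_or_gt_of_ne (hw' p hpL) with h2 | h2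
    · exact absurd (mul_neg_of_pos_of_neg hb h2) h1
    · exact h2
  · intro q hq hs
    apply hu q hq
    unfold SepPts at *
    rcases PM1_sep_trans hs (hw q hq) with h1 | h1
    · exact h1
    · exact absurd h1 (h q hq)

/-- the first point of `Across` is determined up to its plaque -/
theorem PM1_across_left (S : LeafSystem Γ) {p : Bd × Bd} {w w' z : ℍ} (hz : S.OffPt z)
    (hp : S.Across p w z) (hp' : S.Across p w' z) : S.SamePl w w' := by
  obtain ⟨hpL, hf, hb, hu⟩ := hp
  obtain ⟨_, hf', _, hu'⟩ := hp'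
  intro q hq hs
  unfold FrontPt at hf hf'
  have hpos : 0 < side w p.1 p.2 * side w' p.1 p.2 := mul_pos_of_neg_of_neg hf hf'
  have key : q = p ∨ q = (p.2, p.1) := by
    have hs' := hs
    unfold SepPts at hs'
    rcases PM1_sep_trans hs' (hz q hq) with h1 | h1
    · exact hu q hq h1
    · refine hu' q hq ?_
      unfold SepPts
      rwa [mul_comm]
  have hswap : ∀ u : ℍ, side u p.2 p.1 = - side u p.1 p.2 := by
    intro u
    unfold side dt
    ring
  rcases key with rfl | rfl
  · unfold SepPts at hs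
    linarith
  · unfold SepPts at hs
    simp only [hswap] at hs
    linarith [hs, hpos, neg_mul_neg (side w p.1 p.2) (side w' p.1 p.2)]

theorem PM1_val_off (S : LeafSystem Γ) (E : Bd × Bd → SL(2, ℝ)) (z₀ : ℍ) {z : ℍ} {a : SL(2, ℝ)}
    (h : PM1_Val S E z₀ z a) : S.OffPt z := by
  cases h <;> assumption

theorem PM1_val_same (S : LeafSystem Γ) (E : Bd × Bd → SL(2, ℝ)) (z₀ : ℍ) {z z' : ℍ}
    {a : SL(2, ℝ)} (h : PM1_Val S E z₀ z a) (hz' : S.OffPt z') (hs : S.SamePl z z') :
    PM1_Val S E z₀ z' a := by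
  cases h with
  | base _ hz h => exact PM1_Val.base z' hz' (PM1_same_trans S hz h hs)
  | step p w _ a hw hz hp h0 hv =>
    exact PM1_Val.step p w z' a hw hz' (PM1_across_right S hz hz' hs hp) h0 hv

theorem PM1 (hGM5 : GM5_stmt) (hPN6 : PN6_stmt) : PM1_stmt := by
  classical
  intro Γ hΓ S E hE z₀ hz₀
  have hfin : ∀ z : ℍ, {q : Bd × Bd | q ∈ S.L ∧ SepPts q.1 q.2 z₀ z}.Finite :=
    fun z => (hGM5 Γ hΓ S).1 z₀ z
  have hPN := (hPN6 Γ hΓ S).2
  -- the sets shrink
  have hshrink : ∀ (z' : ℍ) (p : Bd × Bd) (w : ℍ),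
      {q : Bd × Bd | q ∈ S.L ∧ SepPts q.1 q.2 z₀ w} ∪ {p, (p.2, p.1)} =
        {q : Bd × Bd | q ∈ S.L ∧ SepPts q.1 q.2 z₀ z'} →
      p ∉ {q : Bd × Bd | q ∈ S.L ∧ SepPts q.1 q.2 z₀ w} →
      {q : Bd × Bd | q ∈ S.L ∧ SepPts q.1 q.2 z₀ w}.ncard <
        {q : Bd × Bd | q ∈ S.L ∧ SepPts q.1 q.2 z₀ z'}.ncard := by
    intro z' p w h1 h2
    apply Set.ncard_lt_ncard _ (hfin z')
    rw [← h1]
    refine ⟨Set.subset_union_left, ?_⟩
    intro h3
    exact h2 (h3 (Or.inr (by simp)))
  -- existence
  have hex : ∀ n : ℕ, ∀ z : ℍ, S.OffPt z →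
      {q : Bd × Bd | q ∈ S.L ∧ SepPts q.1 q.2 z₀ z}.ncard = n → ∃ a, PM1_Val S E z₀ z a := by
    intro n
    induction n using Nat.strong_induction_on with
    | _ n ih =>
      intro z hz hn
      by_cases hs : S.SamePl z₀ z
      · exact ⟨1, PM1_Val.base z hz hs⟩
      · obtain ⟨p, w, hw, hp, h1, h2, -⟩ := hPN z₀ z hz₀ hz hs
        obtain ⟨a, ha⟩ := ih _ (hn ▸ hshrink z p w h1 h2) w hw rfl
        have hpm : p ∈ {q : Bd × Bd | q ∈ S.L ∧ SepPts q.1 q.2 z₀ z} := by
          rw [← h1]
          exact Or.inr (by simp)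
        have hb := hp.2.2.1
        have hpm2 := hpm.2
        unfold SepPts at hpm2
        unfold BehindPt at hb
        have h0 : FrontPt p z₀ := by
          unfold FrontPt
          by_contra h3
          have := mul_nonneg (not_lt.mp h3) hb.le
          linarith
        exact ⟨a * E p, PM1_Val.step p w z a hw hz hp h0 ha⟩
  -- no step ends in the base plaque
  have hbase : ∀ (p : Bd × Bd) (w z : ℍ), S.Across p w z → FrontPt p z₀ → ¬ S.SamePl z₀ z := by
    intro p w z hp h0 hs
    exact hs p hp.1 (mul_neg_of_neg_of_pos h0 hp.2.2.1)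
  -- uniqueness
  have hun : ∀ n : ℕ, ∀ z : ℍ, {q : Bd × Bd | q ∈ S.L ∧ SepPts q.1 q.2 z₀ z}.ncard = n →
      ∀ a b, PM1_Val S E z₀ z a → PM1_Val S E z₀ z b → a = b := by
    intro n
    induction n using Nat.strong_induction_on with
    | _ n ih =>
      intro z hn a b ha hb
      cases ha with
      | base _ hz h =>
        cases hb with
        | base _ hz' h' => rfl
        | step p' w' _ b' hw' _ hp' h0' hv' => exact absurd h (hbase p' w' z hp' h0')
      | step p w _ a' hw hz hp h0 hv =>
        cases hb with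
        | base _ hz' h' => exact absurd h' (hbase p w z hp h0)
        | step p' w' _ b' hw' _ hp' h0' hv' =>
          obtain ⟨q, v, hv0, hq, h1, h2, h3⟩ := hPN z₀ z hz₀ hz (hbase p w z hp h0)
          have e1 : p = q := h3 p w hw hp h0
          have e2 : p' = q := h3 p' w' hw' hp' h0'
          subst e1
          subst e2
          have s1 : S.SamePl w v := PM1_across_left S hz hp hq
          have s2 : S.SamePl w' v := PM1_across_left S hz hp' hq
          have v1 := PM1_val_same S E z₀ hv hv0 s1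
          have v2 := PM1_val_same S E z₀ hv' hv0 s2
          rw [ih _ (hn ▸ hshrink z _ v h1 h2) v rfl a' b' v1 v2]
  choose! A hA using fun (z : ℍ) (hz : S.OffPt z) => hex _ z hz rfl
  have huniq : ∀ z a, PM1_Val S E z₀ z a → a = A z := fun z a h =>
    hun _ z rfl a (A z) h (hA z (PM1_val_off S E z₀ h))
  have hswap : ∀ (u : ℍ) (p : Bd × Bd), side u p.2 p.1 = - side u p.1 p.2 := by
    intro u p
    unfold side dt
    ring
  refine ⟨A, ⟨?_, ?_⟩, ?_⟩
  · intro z z' hz hz' hs
    exact huniq z' (A z) (PM1_val_same S E z₀ (hA z hz) hz' hs)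
  · intro z z' p hz hz' hp
    rcases lt_or_gt_of_ne (hz₀ p hp.1) with h0 | h0
    · exact (huniq z' _ (PM1_Val.step p z z' (A z) hz hz' hp h0 (hA z hz))).symm
    · have hp' : S.Across (p.2, p.1) z' z := by
        obtain ⟨hpL, hf, hb, hu⟩ := hp
        refine ⟨S.swap p hpL, ?_, ?_, ?_⟩
        · unfold FrontPt BehindPt at *
          simp only [hswap]
          linarith
        · unfold FrontPt BehindPt at *
          simp only [hswap]
          linarith
        · intro q hq hs
          rcases hu q hq (by unfold SepPts at *; rwa [mul_comm]) with h | h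
          · right
            simp [h]
          · left
            exact h
      have h0' : FrontPt (p.2, p.1) z₀ := by
        unfold FrontPt
        simp only [hswap]
        linarith
      have := huniq z _ (PM1_Val.step (p.2, p.1) z' z (A z') hz' hz hp' h0' (hA z' hz'))
      rw [hE p hp.1] at this
      rw [← this]
      group
  · exact (huniq z₀ 1 (PM1_Val.base z₀ hz₀ (by
      intro p hp hs
      unfold SepPts at hs
      have := mul_self_nonneg (side z₀ p.1 p.2)
      linarith))).symm

end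

end AdSBend
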